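import Pool.Agent.H27.GPow

set_option autoImplicit false

namespace Pool.Agent.Results.MP_8f3806_al.Iff

open Matrix commutatorElement Pool.Agent.H27.GPow

variable {n : ℕ} (Γ : SimpleGraph (Fin n)) [DecidableRel Γ.Adj]

/-- the closed neighbourhood -/
def N (v : Fin n) : Finset (Fin n) := insert v (Γ.neighborFinset v)

/-- the element `g^v` -/
def click {G : Type} [Group G] (g : G) (v : Fin n) : Fin n → G :=
  fun w => if w ∈ N Γ v then g else 1

/-- the graph power `G^Γ` -/
def power (G : Type) [Group G] : Subgroup (Fin n → G) :=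
  Subgroup.closure {x | ∃ (g : G) (v : Fin n), x = click Γ g v}

/-- the subgroup `Comm_b(G, Γ)` -/
def commB (G : Type) [Group G] : Subgroup (Fin n → G) :=
  Subgroup.closure {x | ∃ (g h : G) (v w : Fin n), x = ⁅click Γ g v, click Γ h w⁆}

/-- the RA matrix -/
def RA : Matrix (Fin n × Fin n) (Fin n) ℤ := fun r w => if w ∈ N Γ r.1 ∩ N Γ r.2 then 1 else 0

theorem N_comm (u v : Fin n) : u ∈ N Γ v ↔ v ∈ N Γ u := by
  simp [N, eq_comm, Γ.adj_comm]

theorem ra {F : Type} [Field F] {u : Fˣ} (hu : (u : F) ≠ 1) (h : Function.Injective (N Γ)) :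
    Subgroup.pi Set.univ (fun _ => commutator (Aff F)) ≤ power Γ (Aff F) := by
  let T : Submodule F (Fin n → F) :=
    { carrier := {x | ∀ a : F, ι _ (Multiplicative.ofAdd (a • x)) ∈ power Γ (Aff F)}
      add_mem' := fun hx hy a => by
        rw [smul_add, ofAdd_add, map_mul]; exact mul_mem (hx a) (hy a)
      zero_mem' := fun a => by simpa using one_mem _
      smul_mem' := fun b x hx a => by rw [smul_smul]; exact hx _ }
  have h1 : ∀ v, ∀ x ∈ T, (fun w => if w ∈ N Γ v then x w else 0) ∈ T := fun v x hx a => by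
    have e : ι _ (Multiplicative.ofAdd (a • fun w => if w ∈ N Γ v then x w else 0)) =
        ⁅click Γ (⟨0, u⟩ : Aff F) v, ι _ (Multiplicative.ofAdd ((a / (u - 1)) • x))⁆ := by
      funext w
      change tr (F := F) _ = ⁅click Γ (⟨0, u⟩ : Aff F) v w, tr (F := F) _⁆
      by_cases hw : w ∈ N Γ v
      · rw [click, if_pos hw, comm_tr]
        simp only [toAdd_ofAdd, Pi.smul_apply, if_pos hw, smul_eq_mul]
        rw [← mul_assoc, mul_div_cancel₀ _ (sub_ne_zero.2 hu)]
      · rw [click, if_neg hw, commutatorElement_one_left]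
        simp only [toAdd_ofAdd, Pi.smul_apply, if_neg hw, smul_zero]
        rfl
    rw [e, commutatorElement_def]
    have hc : click Γ (⟨0, u⟩ : Aff F) v ∈ power Γ (Aff F) := Subgroup.subset_closure ⟨_, _, rfl⟩
    exact mul_mem (mul_mem (mul_mem hc (hx _)) (inv_mem hc)) (inv_mem (hx _))
  have h2 : ∀ (v : Fin n) (s : Finset (Fin n)), ∃ x ∈ T, x v = 1 ∧ ∀ w ∈ s, w ≠ v → x w = 0 := by
    intro v s
    induction s using Finset.induction_on with
    | empty =>
      refine ⟨fun w => if w ∈ N Γ v then 1 else 0, fun a => Subgroup.subset_closure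
        ⟨tr a, v, ?_⟩, by simp [N], by simp⟩
      funext w
      change tr _ = _
      by_cases hw : w ∈ N Γ v <;> simp [click, hw]
      rfl
    | insert w s _ ih =>
      obtain ⟨x, hx, h0, h3⟩ := ih
      by_cases hw : w = v
      · exact ⟨x, hx, h0, by simpa [hw] using h3⟩
      obtain ⟨y, hy⟩ : ∃ y, ¬ (w ∈ N Γ y ↔ v ∈ N Γ y) := by
        by_contra hn
        push Not at hn
        exact hw (h (Finset.ext fun y => by rw [N_comm, hn, N_comm]))
      by_cases hv : v ∈ N Γ y
      · refine ⟨_, h1 y x hx, by simp [hv, h0], fun z hz hz' => ?_⟩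
        rcases Finset.mem_insert.1 hz with rfl | hz
        · exact if_neg (by tauto)
        · simp [h3 z hz hz']
      · refine ⟨_, T.sub_mem hx (h1 y x hx), by simp [hv, h0], fun z hz hz' => ?_⟩
        rcases Finset.mem_insert.1 hz with rfl | hz
        · simp [show z ∈ N Γ y by tauto]
        · simp [h3 z hz hz']
  intro g hg
  have h3 : (fun w => (g w).a) ∈ T := by
    rw [← Finset.univ_sum_single fun w => (g w).a]
    refine T.sum_mem fun v _ => ?_
    obtain ⟨x, hx, h0, h3⟩ := h2 v Finset.univ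
    have : Pi.single v (g v).a = (g v).a • x := funext fun w => by
      by_cases hw : w = v
      · simp [hw, h0]
      · simp [hw, h3 w (Finset.mem_univ _) hw]
    rw [this]
    exact T.smul_mem _ hx
  have : g = ι _ (Multiplicative.ofAdd ((1 : F) • fun w => (g w).a)) := funext fun w => by
    ext
    · exact (one_mul _).symm
    · exact congrArg Units.val ((mem_comm hu _).1 (hg w trivial))
  rw [this]
  exact h3 1

theorem result {n : ℕ} (Γ : SimpleGraph (Fin n)) [DecidableRel Γ.Adj]
    (U : Matrix (Fin n × Fin n) (Fin n × Fin n) ℤ) (W : Matrix (Fin n) (Fin n) ℤ)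
    (hU : IsUnit U.det) (hW : IsUnit W.det) (e : Fin n → Fin n × Fin n)
    (he : Function.Injective e) (d : Fin n → ℕ) (hd : ∀ i j, i ≤ j → d i ∣ d j)
    (h : ∀ r j, (U * RA Γ * W) r j = if r = e j then (d j : ℤ) else 0)
    (k : ℕ) (hk : k = (Finset.univ.filter fun i => d i ≠ 1).card) :
    (∃ (G : Type) (_ : Group G) (_ : Finite G), (∃ a b : G, a * b ≠ b * a) ∧
      Nonempty (commB Γ G ≃* (Fin (n - k) → commutator G)) ∧
      Subgroup.pi Set.univ (fun _ => commutator G) ≤ power Γ G) ↔ Function.Injective (N Γ) := by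
  classical
  constructor
  · rintro ⟨G, _, -, ⟨a, b, hab⟩, -, hG⟩ v w hvw
    by_contra hne
    have h1 : ∀ x ∈ power Γ G, x v = x w := fun x hx => by
      induction hx using Subgroup.closure_induction with
      | mem x hx =>
        obtain ⟨g, y, rfl⟩ := hx
        simp only [click, N_comm Γ _ y, hvw]
      | one => rfl
      | mul x y _ _ h1 h2 => simp [h1, h2]
      | inv x _ h1 => simp [h1]
    have := h1 (Pi.mulSingle v ⁅a, b⁆) (hG fun i _ => by
      by_cases hi : i = v
      · subst hi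
        rw [Pi.mulSingle_eq_same]
        exact Subgroup.commutator_mem_commutator trivial trivial
      · rw [Pi.mulSingle_eq_of_ne hi]; exact (commutator G).one_mem)
    rw [Pi.mulSingle_eq_same, Pi.mulSingle_eq_of_ne (Ne.symm hne)] at this
    exact hab (commutatorElement_eq_one_iff_mul_comm.1 this)
  intro hN
  obtain ⟨p, hp, hpd⟩ : ∃ p : ℕ, p.Prime ∧ ∀ i, d i ≠ 1 → p ∣ d i := by
    rcases (Finset.univ.filter fun i => d i ≠ 1).eq_empty_or_nonempty with h0 | h0
    · exact ⟨2, Nat.prime_two, fun i hi => by simpa [hi] using Finset.ext_iff.1 h0 i⟩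
    · obtain ⟨p, hp, h1⟩ := Nat.exists_prime_and_dvd
        (Finset.mem_filter.1 (Finset.min'_mem _ h0)).2
      exact ⟨p, hp, fun i hi => h1.trans (hd _ _ (Finset.min'_le _ _ (by simpa using hi)))⟩
  haveI := Fact.mk hp
  obtain ⟨u, hu0, hu⟩ : ∃ u : GaloisField p 2, u ≠ 0 ∧ u ≠ 1 := by
    haveI := Fintype.ofFinite (GaloisField p 2)
    obtain ⟨u, -, hu⟩ := Finset.exists_mem_notMem_of_card_lt_card
      (s := ({0, 1} : Finset (GaloisField p 2))) (t := Finset.univ) (Finset.card_le_two.trans_lt (by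
        rw [Finset.card_univ, ← Nat.card_eq_fintype_card, GaloisField.card p 2 two_ne_zero]
        have := hp.two_le
        nlinarith))
    exact ⟨u, by simpa using hu⟩
  lift u to (GaloisField p 2)ˣ using hu0.isUnit
  refine ⟨Aff (GaloisField p 2), inferInstance, inferInstance,
    ⟨⟨0, u⟩, tr 1, fun h => hu (by simpa [tr] using congrArg Aff.a h)⟩, ?_, ra Γ hu hN⟩
  set C := (RA Γ).map (Int.castRingHom (GaloisField p 2))
  have c : ∀ (g h : Aff (GaloisField p 2)) v w, ⁅click Γ g v, click Γ h w⁆ =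
      ι _ (Multiplicative.ofAdd (⁅g, h⁆.a • C (v, w))) := fun g h v w => funext fun y => by
    change ⁅click Γ g v y, click Γ h w y⁆ = tr _
    by_cases h1 : y ∈ N Γ v <;> by_cases h2 : y ∈ N Γ w <;> simp [click, C, RA, h1, h2]
    exacts [comm_u g h, rfl, rfl, rfl]
  have e1 := closure_eq C
  have e0 : commB Γ (Aff (GaloisField p 2)) = Subgroup.closure
      {y | ∃ a : GaloisField p 2, ∃ r, y = ι _ (Multiplicative.ofAdd (a • C r))} := by
    refine congrArg Subgroup.closure (Set.ext fun x => ⟨?_, ?_⟩)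
    · rintro ⟨g, h, v, w, hx⟩
      exact ⟨_, _, hx.trans (c g h v w)⟩
    · rintro ⟨a, r, hx⟩
      exact ⟨⟨0, u⟩, tr (a / (u - 1)), r.1, r.2, by
        rw [hx, c, comm_tr, mul_div_cancel₀ _ (sub_ne_zero.2 hu)]; rfl⟩
  have e2 := rank_eq (F := GaloisField p 2) (RA Γ) U W hU hW e he d h
  rw [rank_eq_finrank_span_row] at e2
  have e3 : Fintype.card {j // (d j : GaloisField p 2) ≠ 0} = n - k := by
    have := Finset.card_filter_add_card_filter_not (s := Finset.univ) fun i => d i ≠ 1
    rw [Fintype.card_subtype, hk, Finset.filter_congr (q := fun i => ¬ d i ≠ 1) fun i _ => ?_]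
    · simp only [Finset.card_univ, Fintype.card_fin] at this; omega
    · rw [Ne, CharP.cast_eq_zero_iff _ p]
      exact ⟨fun h h' => h (hpd i h'), fun h h' => hp.one_lt.ne' (by
        rw [not_not.1 h] at h'; exact Nat.dvd_one.1 h')⟩
  have f := LinearEquiv.ofFinrankEq (R := GaloisField p 2) (Submodule.span _ (Set.range C))
    (Fin (n - k) → GaloisField p 2) (e2.trans (by simp [e3]))
  rw [e0.trans e1]
  exact ⟨(Subgroup.equivMapOfInjective _ _ (ι_inj _)).symm.trans
    (MulEquiv.trans (M := Multiplicative (Submodule.span _ (Set.range C)))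
      (AddEquiv.toMultiplicative f.toAddEquiv) (pw hu _))⟩

end Pool.Agent.Results.MP_8f3806_al.Iff
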